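import Pool.Agent.Lib.MP_751085_ag.ZF.NF.Cyc
import Pool.Agent.Lib.MP_751085_ag.ZF.E.B2
import Pool.Agent.Lib.MP_751085_ag.ZF.E.X1

/-! The Brauer group and the pairing of the statement in terms of the working versions. -/

namespace Pool.Agent.ZCy.F

open scoped Classical
open NumberField

attribute [local instance] Place.field Place.alg bsGroup bsMonoid bsAddZero bsZero bsSMul

variable {k : Type} [Field k] {X : Var k}

theorem val_iff {M Ω : Type} [Field M] [Algebra k M] [Field Ω] [Algebra M Ω] [IsAlgClosure M Ω]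
    {x : Fin (X.N + 1) → M} (hx : X.On x) (α : Brs X.F (AlgebraicClosure X.F)) (β : Brs M Ω) :
    X.Val α x β ↔ ∃ a b, X.Vw a x b ∧ α = frW _ _ a ∧ β = frW M Ω b := by
  constructor
  · rintro ⟨O, G, A, _, _, _, _, _, s, i, ι, ρ, c, h1, h2, h3, h4, h5, h6, h7, h8, h9, h10⟩
    have := Fintype.ofFinite G
    obtain ⟨e, he⟩ := exists_ev hx
    let φ : O →+* M := e.comp (s.codRestrict (X.LR x) fun o => mem_LR.2 ((h2 _).1 ⟨o, rfl⟩))
    have hφ : ∀ o, X.Reg x (s o) (φ o) := fun o => ev_reg he ⟨s o, _⟩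
    let U : UC O :=
      { G := G, A := A, i := i, inj := h3, inv := h4, c := c
        coc := fun g h j => Units.ext (h8 g h j)
        crd := crd_of_point i h4 ρ (fun o ho => by
          obtain ⟨a, b⟩ := reg_inv hx (hφ o) fun u => ho (by rw [h6 o _ (hφ o), u, map_zero])
          obtain ⟨o', e'⟩ := (h2 _).2 ⟨_, b⟩
          exact IsUnit.of_mul_eq_one o' (h1 (by rw [map_mul, e', map_one, mul_inv_cancel₀ a]))) h7 }
    exact ⟨_, _, vw_of hx U s φ hφ, (img_iff U s ι h5 α).1 h9,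
      (img_iff U φ ρ (fun o => h6 o _ (hφ o)) β).1 h10⟩
  · rintro ⟨_, _, ⟨U, e, he, rfl, rfl⟩, h1, h2⟩
    have := IsAlgClosure.isAlgClosed M (K := Ω)
    obtain ⟨ι, hι⟩ := U.exists_pt (X.LR x).subtype (AlgebraicClosure X.F)
    obtain ⟨ρ, hρ⟩ := U.exists_pt e Ω
    exact ⟨X.LR x, U.G, U.A, _, _, inferInstance, _, _, (X.LR x).subtype, U.i, ι, ρ, U.c,
      Subtype.val_injective, fun f => by rw [Subring.range_subtype, mem_LR], U.inj, U.inv, hι,
      fun o m h => by rw [hρ, he o m h], fun g => U.eq_one ρ,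
      fun g h j => congrArg Units.val (U.coc g h j), (img_iff U _ ι hι α).2 h1,
      (img_iff U e ρ hρ β).2 h2⟩

theorem mem_BrX (E : EvApi X) (α : Brs X.F (AlgebraicClosure X.F)) :
    α ∈ X.BrX ↔ ∃ a ∈ X.Bw, frW _ _ a = α := by
  constructor
  · intro h
    obtain ⟨a, rfl⟩ := (frW_bij X.F _).2 α
    refine ⟨a, mem_Bw.2 fun M _ _ x hx => ?_, rfl⟩
    obtain ⟨i, hi⟩ := Function.ne_iff.1 hx.1
    have hu : (x i)⁻¹ ≠ 0 := inv_ne_zero hi
    obtain ⟨β, hβ⟩ := h M ⟨(x i)⁻¹ • x, ⟨i, inv_mul_cancel₀ hi⟩, (on_smul hu hx).2⟩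
    obtain ⟨_, b, ⟨U, e, -, rfl, -⟩, h1, -⟩ := (val_iff (on_smul hu hx) _ _).1 hβ
    exact LR_smul (X := X) (x := x) hu ▸ mem_loc.2 ⟨U, ((frW_bij X.F _).1 h1).symm⟩
  · rintro ⟨a, ha, rfl⟩ M _ _ x
    have hx : X.On x.1 := ⟨fun h => x.2.1.elim fun i hi =>
      one_ne_zero (hi.symm.trans (congrFun h i)), x.2.2⟩
    exact ⟨_, (val_iff hx _ _).2 ⟨a, _, (E.vw a ha M _ hx _).2 rfl, rfl, rfl⟩⟩

theorem frW_zsmul {K Ω : Type} [Field K] [Field Ω] [Algebra K Ω] (m : ℤ) (b : BR K) :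
    frW K Ω (m • b) = m • frW K Ω b :=
  map_zsmul (show BR K →+ Brs K Ω from frW K Ω) m b

theorem pairS_frW (E : EvApi X) {a : BR X.F} (ha : a ∈ X.Bw) {L : Type} [Field L] [Algebra k L]
    (z : X.Cyc L) : Var.pairS z (frW _ _ a) = frW L _ (Var.pr z a) := by
  induction z using Finsupp.induction_linear with
  | zero => exact ((frW L _).map_zero).symm
  | add p q hp hq =>
    exact (Finsupp.sum_add_index' (fun _ => zero_zsmul _) fun x m m' => add_zsmul _ m m').trans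
      ((congrArg₂ (· + ·) hp hq).trans (((frW L _).map_add _ _).symm.trans
        (congrArg _ (nf_add p q a).symm)))
  | single x m =>
    have hx := Var.crd_on x
    obtain ⟨a', b, h1, h2, h3⟩ := (val_iff hx _ (Var.evalS (frW _ _ a) x)).1
      (Classical.epsilon_spec ⟨_, (val_iff hx _ _).2 ⟨a, _, (E.vw a ha _ _ hx _).2 rfl, rfl, rfl⟩⟩)
    obtain rfl := (frW_bij X.F _).1 h2
    obtain rfl := (E.vw a ha _ _ hx _).1 h1
    exact (Finsupp.sum_single_index (zero_zsmul _)).trans ((congrArg (HSMul.hSMul m)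
      ((congrArg _ h3).trans (coresS_frW _ _))).trans ((frW_zsmul m _).symm.trans
        (congrArg _ (nf_single x m a).symm)))

theorem brg : BRG := fun k _ _ j => by
  refine ⟨fun v => (j.fin v).comp (frW _ _), fun v => (j.fin_inj v).comp (frW_bij _ _).1,
    fun X E => imp_congr_left ⟨?_, ?_⟩⟩
  · rintro ⟨z, z', h1, -, h3⟩
    refine ⟨z, h1, fun a ha => ?_⟩
    have h := h3 _ ((mem_BrX E _).2 ⟨a, ha, rfl⟩)
    rw [finsum_of_isEmpty (α := InfinitePlace k), add_zero] at h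
    exact (finsum_congr fun v => congrArg (j.fin v) (pairS_frW E ha (z v)).symm).trans h
  · rintro ⟨z, h1, h3⟩
    refine ⟨z, fun w => isEmptyElim w, h1, fun w => isEmptyElim w, fun α hα => ?_⟩
    obtain ⟨a, ha, rfl⟩ := (mem_BrX E _).1 hα
    rw [finsum_of_isEmpty (α := InfinitePlace k), add_zero]
    exact (finsum_congr fun v => congrArg (j.fin v) (pairS_frW E ha (z v))).trans (h3 a ha)

end Pool.Agent.ZCy.F
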