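import Pool.Agent.Lib.MP_751085_ag.ZF.H.Main
import Pool.Agent.Lib.MP_751085_ag.ZF.C.Main
import Pool.Agent.Lib.MP_751085_ag.ZF.E.S6
import Pool.Agent.Lib.MP_751085_ag.ZF.E.X2
import Pool.Agent.Lib.MP_751085_ag.ZF.G.ExpB
import Pool.Agent.Lib.MP_751085_ag.ZF.G.ExpC
import Pool.Agent.Lib.MP_751085_ag.ZF.G.ExpR
import Pool.Agent.Lib.MP_751085_ag.ZF.K.K0x
import Pool.Agent.Lib.MP_751085_ag.ZF.K.K9
import Pool.Agent.Lib.MP_751085_ag.ZF.K.Wrap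
import Pool.Agent.Lib.MP_751085_ag.ZF.L.Lef
import Pool.Agent.Lib.MP_751085_ag.ZF.N.F3
import Pool.Agent.Lib.MP_751085_ag.ZF.N.I1
import Pool.Agent.Lib.MP_751085_ag.ZF.N.O2
import Pool.Agent.Lib.MP_751085_ag.ZF.N.TMain
import Pool.Agent.Lib.MP_751085_ag.ZF.T.Main
import Pool.Agent.Lib.MP_751085_ag.ZF.U.Div
import Pool.Agent.Lib.MP_751085_ag.ZF.U.Main
import Pool.Agent.Lib.MP_751085_ag.ZF.U.Nu
import Pool.Agent.Lib.MP_751085_ag.ZF.W.Wr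
import Pool.Agent.Lib.MP_751085_ag.ZF.X.Api
import Pool.Agent.Lib.MP_751085_ag.ZF.X.Main
import Pool.Agent.Lib.MP_751085_ag.ZF.Z.Thm

/-! The blocks put together. -/

namespace Pool.Agent.ZCy.F

open Pool.Agent.ZFy

theorem all_div : DIVp := fun _ _ _ _ hi _ hD h0 _ hM => U.div_Dv hi hM hD h0

theorem all_out : ZFN.SOUT := fun p hp _ _ _ _ _ hX hk _ _ hσ _ _ _ _ _ _ _ _ _ _ S => by
  obtain ⟨_, _, _, _, _, h⟩ := S.exists_frame (ZFN.tame0 irrp) gdv_thm hX hk hσ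
  exact h.out hp.1.ne_zero

theorem all_hyp : HHyp where
  cm := cMainS_of irrp
  zex := zex_thm
  gdv := gdv_thm
  p45 := ZFN.p45_of all_out ZFd.dapi ev_thm aaa_thm chfp_thm n1p_thm
  lp := ZFd.lefp ev_thm
  ll := lefl_of (Kp.thmKp_of all_div) (Kp.k0ex_of finW) (Kp.thmK9_of all_div rgd) thmZL resh
    chfp_thm n1p_thm (fun _ _ _ _ _ _ c _ => goodM c) ev_thm
  tg := tGood_of ⟨chfp_thm, ev_thm, Kp.thmKTp_of all_div, fun _ _ _ _ _ _ c _ => goodM c,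
    conn_thm, irro_thm⟩
  nu := U.nu_thm
  ua := Uw.uapi_of ev_thm lca_thm
  re := Uw.real_of ev_thm wr lca_thm
  co := Uw.cover_of ev_thm wr
  ev := ev_thm
  aa := aaa_thm

end Pool.Agent.ZCy.F
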