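import Pool.Agent.Lib.MP_751085_ag.ZF.EIf
import Pool.Agent.Lib.MP_751085_ag.ZF.E.N1b
import Pool.Agent.Lib.MP_751085_ag.ZC.W5

/-! Base change of cycles along a homomorphism of fields. -/

namespace Pool.Agent.ZCy.F

open scoped Classical
open Module IntermediateField

variable {k : Type} [Field k] {X : Var k} {L L' : Type} [Field L] [Algebra k L] [Field L']
  [Algebra k L']

theorem nf_add (z z' : X.Cyc L) (a : BR X.F) : Var.pr (z + z') a = Var.pr z a + Var.pr z' a :=
  Finsupp.sum_add_index' (fun _ => zero_zsmul _) fun x m m' =>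
    add_zsmul (X.ptv a (Var.res x) x.1) m m'

theorem nf_single (x : X.Pt (AlgebraicClosure L)) (m : ℤ) (a : BR X.F) :
    Var.pr (Finsupp.single x m : X.Cyc L) a =
      m • corN L (Var.res x) (X.vl a (Var.res x) (Var.crd x)) :=
  (Finsupp.sum_single_index (zero_zsmul _)).trans (congrArg (m • ·) (dif_pos _))

theorem nf_pt (E : EvApi X) (φ : L →ₐ[k] L') (x : X.Pt (AlgebraicClosure L))
    {τ : Var.res x →+* AlgebraicClosure L'}
    (h : ∀ a, τ (algebraMap L _ a) = algebraMap L' _ (φ a)) : ∃ y : X.Pt (AlgebraicClosure L'),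
      finrank L' (Var.res y) = finrank L' (emF L' τ) ∧ ∀ a ∈ X.Bw,
        corN L' (Var.res y) (X.vl a (Var.res y) (Var.crd y)) =
          corN L' (emF L' τ) (rs (emH L' τ) (X.vl a (Var.res x) (Var.crd x))) := by
  have h0 : ∀ a, τ (algebraMap k _ a) = algebraMap k _ a := fun a =>
    (h (algebraMap k L a)).trans (congrArg _ (φ.commutes a))
  let ψ : Var.res x →ₐ[k] AlgebraicClosure L' := ⟨τ, h0⟩
  let ψ' : Var.res x →ₐ[k] emF L' τ := ⟨emH L' τ, fun a => Subtype.ext (h0 a)⟩
  let y : X.Pt (AlgebraicClosure L') := ⟨ψ ∘ Var.crd x, x.2.1.imp fun i hi =>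
    (congrArg ψ (Subtype.ext hi)).trans (map_one ψ), ((w5_on ψ).2 (Var.crd_on x)).2⟩
  have h1 : Var.res y = emF L' τ := le_antisymm
    (adjoin.mono _ _ _ (Set.range_subset_iff.2 fun i => ⟨_, rfl⟩)) (adjoin_le_iff.2 (by
      rintro _ ⟨m, rfl⟩
      have hm : m ∈ adjoin L (Set.range (Var.crd x)) := (w5_top le_rfl).ge mem_top
      induction hm using adjoin_induction with
      | mem z hz => exact hz.elim fun i e => e ▸ subset_adjoin _ _ ⟨i, rfl⟩
      | algebraMap a => exact h a ▸ (Var.res y).algebraMap_mem _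
      | add a b _ _ ha hb => exact map_add τ a b ▸ add_mem ha hb
      | inv a _ ha => exact map_inv₀ τ a ▸ inv_mem ha
      | mul a b _ _ ha hb => exact map_mul τ a b ▸ mul_mem ha hb))
  refine ⟨y, by rw [h1], fun a ha => ?_⟩
  have h2 : ∀ (M : IntermediateField L' (AlgebraicClosure L')) (hM : ∀ i, y.1 i ∈ M),
      M = emF L' τ → corN L' M (X.vl a M fun i => ⟨y.1 i, hM i⟩) =
        corN L' (emF L' τ) (X.vl a _ (ψ' ∘ Var.crd x)) := by
    rintro M hM rfl
    rfl
  exact (h2 _ _ h1).trans (congrArg _ (E.val_map a ha _ _ ψ' _ (Var.crd_on x)))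

theorem nf_bc (E : EvApi X) (φ : L →ₐ[k] L') (z : X.Cyc L) : ∃ z' : X.Cyc L',
    Var.deg z' = Var.deg z ∧ ∀ a ∈ X.Bw, Var.pr z' a = rs (φ : L →+* L') (Var.pr z a) := by
  let D : X.Cyc L' →+ ℤ := .mk' Var.deg Var.deg_add
  let P : BR X.F → X.Cyc L' →+ BR L' := fun a =>
    .mk' (fun z : X.Cyc L' => Var.pr z a) (nf_add · · a)
  induction z using Finsupp.induction_linear with
  | zero => exact ⟨0, rfl, fun a _ => (map_zero _).symm⟩
  | add p q hp hq =>
    obtain ⟨p', h1, h2⟩ := hp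
    obtain ⟨q', h1', h2'⟩ := hq
    exact ⟨p' + q', by rw [Var.deg_add, Var.deg_add, h1, h1'], fun a ha => by
      rw [nf_add, nf_add, map_add, h2 a ha, h2' a ha]⟩
  | single x m =>
    obtain ⟨ι, _, τ, w, h0, -, h1, h2⟩ := corN_orbits (M := Var.res x) (φ : L →+* L')
    choose y h4 h5 using fun i => nf_pt E φ x (h0 i)
    refine ⟨m • ∑ i, .single (y i) (w i), ?_, fun a ha => ?_⟩
    · refine (map_zsmul D _ _).trans ?_
      rw [map_sum, Var.deg_single, ← h1, Nat.cast_sum]
      exact congrArg (m * ·) (Finset.sum_congr rfl fun i _ =>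
        (Var.deg_single _ _).trans (by rw [h4, Nat.cast_mul]))
    · refine (map_zsmul (P a) _ _).trans ?_
      rw [map_sum, nf_single]
      exact (congrArg (m • ·) ((Finset.sum_congr rfl fun i _ => (nf_single _ _ _).trans
        ((natCast_zsmul _ _).trans (congrArg _ (h5 i a ha)))).trans (h2 _).symm)).trans
          (map_zsmul (rs (φ : L →+* L')) m _).symm

end Pool.Agent.ZCy.F
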