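import Pool.Agent.Lib.MP_751085_ag.ZF.NF.Cast
import Pool.Agent.Lib.MP_751085_ag.ZF.NF.Cyc
import Pool.Agent.Lib.MP_751085_ag.ZF.L.Mem
import Pool.Agent.Lib.MP_751085_ag.ZC.L.Ev1

/-! The two descriptions of the Brauer group of a variety agree in characteristic zero. -/

namespace Pool.Agent.ZCy.F

open Pool.Agent.ZFy
open scoped Classical

/-- from the separable to the algebraic closure -/
noncomputable abbrev tA (K : Type) [Field K] [CharZero K] : BR K →+ ZCy.BR K := res (RingHom.id K)

theorem tA_bij (K : Type) [Field K] [CharZero K] : Function.Bijective (tA K) :=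
  ⟨res_injective_of_bijective Function.bijective_id,
    res_surjective_of_bijective Function.bijective_id⟩

theorem tA_rs {K K' : Type} [Field K] [Field K'] [CharZero K] [CharZero K'] (γ : K →+* K')
    (a : BR K) : ZCy.rs γ (tA K a) = tA K' (rs γ a) :=
  (nf_res γ _).trans ((res_res _ γ a).trans (res_res γ (RingHom.id K') a).symm)

variable {k : Type} [Field k] [CharZero k] {X : Var k} [CharZero X.F] {n : ℕ}

theorem nf_spec (E : EvApi X) {a : BR X.F} (ha : a ∈ X.Bw) {M τ : Type} [Field M] [Algebra k M]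
    [CharZero M] [Fintype τ] {γ : X.F →+* Fr (MvPowerSeries τ M)} {x : Fin (X.N + 1) → M}
    (h : X.GermT γ x) : ZCy.rs γ (tA _ a) = ZCy.rs (cC τ M) (tA M (X.vl a M x)) := by
  have : CharZero (Fr (MvPowerSeries τ M)) := charZero_of_injective_ringHom γ.injective
  exact (tA_rs γ a).trans ((congrArg _ (E.spec a ha M τ γ x h)).trans (tA_rs _ _).symm)

theorem nf_mem (hK : ThmK) (hH : HK) (hC : CHF) (hN : N1) (hX : X.Nice n) (hn : 3 ≤ n)
    (E : EvApi X) {a : BR X.F} : tA _ a ∈ X.Brauer ↔ a ∈ X.Bw := by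
  refine ⟨fun ha => ?_, fun ha => Var.mem_brauer fun M _ _ r γ x h => ?_⟩
  · refine AddSubgroup.mem_iInf.2 fun R => AddSubgroup.mem_iInf.2 ?_
    rintro ⟨M, _, _, x, hx, rfl⟩
    obtain ⟨σ, _, c, F', _, _, _, θ, γ, hG, h, hU⟩ := Var.good_chart hC hN hX hn hx
    obtain ⟨h1, h2⟩ := hH k X k σ c F' θ γ hG h _ ha
    obtain ⟨R⟩ := hK k σ c.toPChart F' θ hG h.ff (fun h0 => hU.2 (by simp [PChart.br, h0])) _ h1 h2
    obtain ⟨r, hr⟩ := c.toPChart.D_dvd_br
    have : CharZero F' := charZero_of_injective_ringHom γ.injective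
    have : FiniteDimensional F' R.E := Module.Finite.of_restrictScalars_finite (RF (Option σ) k) _ _
    have : IsGalois F' R.E := IsGalois.tower_top_of_isGalois (RF (Option σ) k) _ _
    exact lf_loc h hG hr ⟨R.E, R.m, R.c, Nat.cast_ne_zero.2 R.pos.ne', R.unr, R.coc, R.pow⟩
      ((tA_bij F').1 ((nf_cls R.coc).trans (R.cls_eq.trans (tA_rs γ a)))) hx hU
  · have : CharZero M := charZero_of_injective_algebraMap (algebraMap k M).injective
    exact ⟨_, nf_spec E ha h⟩

theorem nf_pair (E : EvApi X) (E' : ZCy.EvApi X) {a : BR X.F} (ha : a ∈ X.Bw)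
    (ha' : tA _ a ∈ X.Brauer) {L : Type} [Field L] [Algebra k L] [CharZero L] (z : X.Cyc L) :
    Var.pair z (tA _ a) = tA L (Var.pr z a) := by
  induction z using Finsupp.induction_linear with
  | zero => exact (map_zero _).symm
  | add p q hp hq => rw [Var.pair_add, nf_add, map_add, hp, hq]
  | single x m =>
    have : CharZero (Var.res x) := charZero_of_injective_algebraMap (algebraMap k _).injective
    obtain ⟨r, γ, h⟩ := E.germ _ _ (Var.crd_on x)
    have e : X.val (tA _ a) _ (Var.crd x) = tA _ (X.vl a _ (Var.crd x)) :=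
      la_inj (Fin r) ((E'.spec _ ha' _ _ γ _ h).symm.trans (nf_spec E ha h))
    refine (Finsupp.sum_single_index (zero_zsmul _)).trans (Eq.trans (congrArg (m • ·) ?_)
      ((congrArg _ (nf_single x m a)).trans (map_zsmul (tA L) m _)).symm)
    exact (congrArg _ ((E'.eval _ ha' L x).trans ((congrArg _ e).trans
      ((nf_res _ _).trans (res_res _ _ _))))).trans (nf_cores _ _)

end Pool.Agent.ZCy.F
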