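import Pool.Agent.Lib.MP_751085_ag.ZF.E.B2
import Pool.Agent.Lib.MP_751085_ag.ZC.L.Need

/-! Comparison of the Brauer groups in characteristic zero. -/

namespace Pool.Agent.ZCy.F

open scoped Classical
open groupCohomology

theorem nf_cast {A : Type} [CommGroup A] {Z Z' B B' : Subgroup A} (hZ : Z = Z') (hB : B = B') :
    ∃ e : Additive (Z ⧸ B.subgroupOf Z) → Additive (Z' ⧸ B'.subgroupOf Z'), Function.Injective e ∧
      (∀ β, (qOut Z' B' (e β)).1 = (qOut Z B β).1) ∧ ∀ c,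
        e (if h : c ∈ Z then qMk Z B ⟨c, h⟩ else 0) = if h : c ∈ Z' then qMk Z' B' ⟨c, h⟩ else 0 := by
  subst hZ hB
  exact ⟨id, Function.injective_id, fun _ => rfl, fun _ => rfl⟩

variable {K K' Ω Ω' : Type} [Field K] [Field K'] [Field Ω] [Field Ω'] [Algebra K Ω] [Algebra K' Ω']
  [CharZero K] [IsAlgClosure K Ω]

variable (K Ω) in
theorem nf_e : ∃ e : Br K Ω → Brs K Ω, Function.Injective e ∧
    (∀ β, (qOut (Zs K Ω) (Bs K Ω) (e β)).1 = (qOut (Z2 K Ω) (B2 K Ω) β).1) ∧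
    (∀ c, e (cl K Ω c) = clS K Ω c) ∧ ∀ β : BR K, e (res (RingHom.id K) β) = frW K Ω β := by
  have := IsAlgClosure.isAlgClosed K (K := Ω)
  have h : ∀ u, u ∈ sepU K Ω := fun u => Algebra.IsSeparable.isSeparable K (u : Ω)
  obtain ⟨e, h1, h2, h3⟩ := nf_cast (Z := Z2 K Ω) (Z' := Zs K Ω) (B := B2 K Ω) (B' := Bs K Ω)
    (left_eq_inf.2 fun c _ p _ => h (c p))
    (Subgroup.ext fun c => ⟨fun ⟨e, a, b⟩ => ⟨e, a, fun _ => h _, b⟩, fun ⟨e, a, _, b⟩ => ⟨e, a, b⟩⟩)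
  refine ⟨e, h1, h2, h3, fun β => ?_⟩
  obtain ⟨c, hc, rfl⟩ := exists_cl β
  obtain ⟨j, r, hj⟩ := exists_jr K Ω
  exact (congrArg e (Lk.res_cl (b1_lk hj) hc)).trans ((h3 _).trans (frW_cl hj hc).symm)

theorem nf_cores (M : IntermediateField K Ω) [FiniteDimensional K M] [CharZero M]
    [IsAlgClosure M Ω] (β : BR M) :
    cores M (res (RingHom.id M) β) = res (RingHom.id K) (corN K M β) := by
  obtain ⟨e, h1, -, h3, h4⟩ := nf_e K Ω
  obtain ⟨e', -, g2, -, g4⟩ := nf_e M Ω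
  refine h1 (((h3 _).trans ?_).trans ((coresS_frW M β).trans (h4 _).symm))
  rw [coresS, ← g4, g2, Algebra.IsSeparable.finInsepDegree_eq]
  simp only [pow_one]

theorem nf_res [CharZero K'] [IsAlgClosure K' Ω'] (γ : K →+* K') (a : Br K Ω) :
    (ZCy.res γ a : Br K' Ω') = res γ a := isRes_iff.1 ((la_isRes γ a _).2 rfl)

theorem nf_cls {E : Type} [Field E] [Algebra K E] [FiniteDimensional K E] [IsGalois K E]
    {c : (E ≃ₐ[K] E) × (E ≃ₐ[K] E) → Eˣ} (hc : IsMulCocycle₂ c) :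
    res (RingHom.id K) (cls K c) = ZCy.cls K c := by
  obtain ⟨q, hq⟩ := ZCy.a2_ex K E (E ≃ₐ[K] E)
  exact (res_cls_cl (RingHom.id K) (j := (q.1 : E →+* AlgebraicClosure K)) q.1.commutes hq hc).trans
    (ZCy.cls_eq_cl q.1.commutes hq hc).symm

end Pool.Agent.ZCy.F
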