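import Pool.Agent.Lib.MP_751085_ag.ZF.NF.Main

/-! The statement for all global fields from the working version for function fields. -/

namespace Pool.Agent.ZCy.F

open scoped Classical
open NumberField

attribute [local instance] Place.field Place.alg

/-- the working version of the theorem for function fields -/
def FFMain : Prop := ∀ (k : Type) [Field k] (F₀ : Type) [Field F₀] [Finite F₀]
  [Algebra (RatFunc F₀) k] [FiniteDimensional (RatFunc F₀) k]
  (j : ∀ v : Place k, BR v.K →+ AddCircle (1 : ℚ)), (∀ v, Function.Injective (j v)) →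
  (∀ X : Var k, X.Nice 3 → X.ZCw j) → ∀ n, 4 ≤ n → ∀ X : Var k, X.Nice n → X.ZCw j

theorem gl_empty (k F₀ : Type) [Field k] [Field F₀] [Finite F₀] [Algebra (RatFunc F₀) k] :
    IsEmpty (InfinitePlace k) := ⟨fun w => by
  have h : (Nat.card F₀ : F₀) = 0 := by
    have := Fintype.ofFinite F₀
    rw [Nat.card_eq_fintype_card]
    exact FiniteField.cast_card_eq_zero F₀
  have h' := congrArg (w.embedding.comp ((algebraMap (RatFunc F₀) k).comp RatFunc.C)) h
  rw [map_natCast, map_zero] at h'
  exact Nat.card_pos.ne' (Nat.cast_eq_zero.1 h')⟩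

theorem gl_infinite (k F₀ : Type) [Field k] [Field F₀] [Algebra (RatFunc F₀) k] : Infinite k :=
  Infinite.of_injective _ ((algebraMap (RatFunc F₀) k).injective.comp
    (IsFractionRing.injective (Polynomial F₀) (RatFunc F₀)))

theorem glob_of (hE : EV) (hF : FFMain) (k : Type) [Field k] (hk : IsGlobal k) (j : Invs k)
    (h : ∀ X : Var k, X.Nice 3 → X.ZCs j) (n : ℕ) (hn : 4 ≤ n) (X : Var k) (hX : X.Nice n) :
    X.ZCs j := by
  rcases hk with hk | ⟨F₀, _, _, _, _⟩
  · exact nf_main hE j h n hn X hX
  have := gl_empty k F₀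
  have := gl_infinite k F₀
  obtain ⟨j', hj, H⟩ := brg k j
  exact (H X (hE k X n hX (by omega))).2 (hF k F₀ j' hj
    (fun Y hY => (H Y (hE k Y 3 hY (by omega))).1 (h Y hY)) n hn X hX)

end Pool.Agent.ZCy.F
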