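import Pool.Agent.Lib.MP_751085_ag.ZC.L.HMain
import Pool.Agent.Lib.MP_751085_ag.ZC.L.Lef
import Pool.Agent.Lib.MP_751085_ag.ZC.L.Ev2
import Pool.Agent.Lib.MP_751085_ag.ZC.L.Inf
import Pool.Agent.Lib.MP_751085_ag.ZC.V.Fin
import Pool.Agent.Lib.MP_751085_ag.ZC.Z.Main
import Pool.Agent.Lib.MP_751085_ag.ZC.K.Main
import Pool.Agent.Lib.MP_751085_ag.ZC.K.GR0
import Pool.Agent.Lib.MP_751085_ag.ZC.CFin
import Pool.Agent.Lib.MP_751085_ag.ZC.CM
import Pool.Agent.Lib.MP_751085_ag.ZC.CN1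
import Pool.Agent.Lib.MP_751085_ag.ZC.UMain
import Pool.Agent.Lib.MP_751085_ag.ZC.W6
import Pool.Agent.Lib.MP_751085_ag.ZC.T.Main
import Pool.Agent.Lib.MP_751085_ag.ZC.T.Glue

/-! The reduction to threefolds over number fields. -/

namespace Pool.Agent.ZCy

theorem old_ev : EV := ev_of thmZNP thmK hk chf_thm n1_thm

theorem old_main (k : Type) [Field k] [NumberField k] (j : ZCy.Inv k)
    (h : ∀ X : Var k, X.Nice 3 → X.ZC j) (n : ℕ) (hn : 4 ≤ n) (X : Var k) (hX : X.Nice n) :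
    X.ZC j := by
  have hE := old_ev
  have hT : U.TOR := fun _ _ _ a => exists_torsion a
  exact main_of cyc_thm (cMain_of chf_thm thmZ1L)
    (U.uMain_of n1_thm chf_thm hE (wbc_of hE) (n2_of hE) hT)
    (tMain_of ⟨chf_thm, hE, hk, thmKT, tzp_thm, zlp_thm, z1lp_thm, tap_thm, irrExt_thm⟩ n1_thm
      (wbc_of hE) (n2_of hE) hT)
    (lef_of thmZNP thmLE2 thmZ1H (thmZ_of gr0 thmZNP thmZ1H) thmK hk chf_thm n1_thm hE) hE
    (wbc_of hE) k j h n hn X hX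

end Pool.Agent.ZCy
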