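import Pool.Agent.Lib.MP_751085_ag.ZF.Defs
import Pool.Agent.Lib.MP_751085_ag.ZC.V.AdK

/-! The finite places of a number field. -/

namespace Pool.Agent.ZCy.F

open scoped Classical WithZero
open NumberField IsDedekindDomain IsDedekindDomain.HeightOneSpectrum

attribute [local instance] Place.field Place.alg

variable {k : Type} [Field k]

theorem nf_le (v : Place k) (x : k) :
    (IsDiscreteValuationRing.maximalIdeal v.1).valuation k x ≤ 1 ↔ x ∈ v.1 :=
  ⟨fun h => (IsDiscreteValuationRing.exists_lift_of_le_one h).elim fun a e => e ▸ a.2,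
    fun h => valuation_le_one (K := k) (IsDiscreteValuationRing.maximalIdeal v.1) ⟨x, h⟩⟩

theorem nf_cpl {w w' : Valuation k ℤᵐ⁰} (h : w = w') : ∃ ψ : w.Completion ≃+* w'.Completion,
    ∀ x : k, ψ (UniformSpace.Completion.coeRingHom (algebraMap k (WithVal w) x)) =
      UniformSpace.Completion.coeRingHom (algebraMap k (WithVal w') x) := by
  subst h
  exact ⟨RingEquiv.refl _, fun _ => rfl⟩

theorem nf_place [NumberField k] : ∃ e : HeightOneSpectrum (𝓞 k) ≃ Place k,
    ∀ u, Nonempty (u.adicCompletion k ≃ₐ[k] (e u).K) := by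
  obtain ⟨f, hf⟩ : ∃ f : HeightOneSpectrum (𝓞 k) → Place k,
      ∀ u, (f u).1 = valuationSubringAtPrime k u := ⟨fun u => ⟨valuationSubringAtPrime k u,
    IsLocalization.AtPrime.isDiscreteValuationRing_of_dedekind_domain (𝓞 k) u.ne_bot _⟩,
    fun _ => rfl⟩
  have h1 : ∀ u : HeightOneSpectrum (𝓞 k),
      u.valuation k = (IsDiscreteValuationRing.maximalIdeal (f u).1).valuation k :=
    fun u => kv_eq (valuation_exists_uniformizer k _) (valuation_exists_uniformizer k _) fun x => by
      rw [nf_le, hf, valuationSubringAtPrime_eq_valuationSubring]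
      rfl
  refine ⟨Equiv.ofBijective f ⟨fun u u' e => eq_of_valuation_isEquiv_valuation (K := k) ?_,
    fun v => ?_⟩, fun u => ?_⟩
  · rw [h1, h1, e]
  · have h2 : ∀ a : 𝓞 k, algebraMap (𝓞 k) k a ∈ v.1 := fun a => by
      obtain ⟨y, hy⟩ := (IsIntegrallyClosed.isIntegral_iff (R := v.1) (K := k)).1
        (a.isIntegral_coe.tower_top (R := ℤ))
      exact hy ▸ y.2
    let g : 𝓞 k →+* v.1 := (algebraMap (𝓞 k) k).codRestrict _ h2
    have h3 : v.1 ≠ ⊤ := fun e => IsDiscreteValuationRing.not_isField v.1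
      (e ▸ (Subring.topEquiv.toMulEquiv.isField (Field.toIsField k) : IsField (⊤ : Subring k)))
    have h4 : ∀ a s : 𝓞 k, s ∉ (IsLocalRing.maximalIdeal v.1).comap g →
        algebraMap (𝓞 k) k a * (algebraMap (𝓞 k) k s)⁻¹ ∈ v.1 := fun a s hs => by
      obtain ⟨b, hb⟩ := (not_not.1 hs : IsUnit (g s)).exists_right_inv
      exact eq_inv_of_mul_eq_one_right (a := algebraMap (𝓞 k) k s) (congrArg Subtype.val hb) ▸
        mul_mem (h2 a) b.2
    refine ⟨⟨(IsLocalRing.maximalIdeal v.1).comap g, inferInstance, fun e => h3 ?_⟩,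
      Subtype.ext ((hf _).trans (ValuationSubring.eq_of_le_of_ne_top _ ?_ h3))⟩
    · refine eq_top_iff.2 fun x _ => ?_
      obtain ⟨a, s, hs, rfl⟩ := IsFractionRing.div_surjective (A := 𝓞 k) x
      rw [div_eq_mul_inv]
      exact h4 a s (e ▸ nonZeroDivisors.ne_zero hs)
    · rintro x ⟨a, s, hs, rfl⟩
      exact h4 a s hs
  · obtain ⟨ψ, hψ⟩ := nf_cpl (h1 u)
    exact ⟨AlgEquiv.ofRingEquiv (f := (adicCompletion.equiv k u).trans
      (ψ.trans (adicCompletion.equiv k _).symm)) fun x =>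
        congrArg (adicCompletion.equiv k _).symm (hψ x)⟩

end Pool.Agent.ZCy.F
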