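import Pool.Agent.Lib.MP_751085_ag.ZF.NF.Bra
import Pool.Agent.Lib.MP_751085_ag.ZF.NF.Brx
import Pool.Agent.Lib.MP_751085_ag.ZF.NF.Plc
import Pool.Agent.Lib.MP_751085_ag.ZF.NF.Old

/-! The case of number fields. -/

namespace Pool.Agent.ZCy.F

open scoped Classical
open NumberField IsDedekindDomain

attribute [local instance] Place.field Place.alg

variable {k : Type} [Field k] [NumberField k]

theorem nf_term {X : Var k} [CharZero X.F] (E : EvApi X) (E' : ZCy.EvApi X) {a : BR X.F}
    (ha : a ∈ X.Bw) (ha' : tA _ a ∈ X.Brauer) {L L' : Type} [Field L] [Algebra k L] [CharZero L]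
    [Field L'] [Algebra k L'] {φ : L →+* L'} {z : X.Cyc L} {z' : X.Cyc L'}
    (h : Var.pr z' a = rs φ (Var.pr z a)) :
    frW L' _ (res φ (Var.pair z (tA _ a))) = Var.pairS z' (frW _ _ a) :=
  (congrArg _ ((congrArg _ (nf_pair E E' ha ha' z)).trans ((res_res _ φ _).trans h.symm))).trans
    (pairS_frW E ha z').symm

theorem nf_zc (hE : EV) (j : Invs k) : ∃ j' : ZCy.Inv k, ∀ (X : Var k) (n : ℕ), X.Nice n → 3 ≤ n →
    (X.ZCs j ↔ X.ZC j') := by
  obtain ⟨e, he⟩ := nf_place (k := k)
  have φ := fun u => (he u).some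
  have c1 : ∀ u : HeightOneSpectrum (𝓞 k), CharZero (u.adicCompletion k) := fun u =>
    charZero_of_injective_algebraMap (algebraMap k _).injective
  have c2 : ∀ w : InfinitePlace k, CharZero w.Completion := fun w =>
    charZero_of_injective_algebraMap (algebraMap k _).injective
  refine ⟨⟨fun u => (j.fin (e u)).comp ((frW _ _).comp (res (φ u : _ →+* (e u).K))),
    fun w => (j.inf w).comp ((frW _ _).comp (res (RingHom.id _))),
    fun u => (j.fin_inj _).comp ((frW_bij _ _).1.comp
      (res_injective_of_bijective (φ u).bijective)),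
    fun w => (j.inf_inj _).comp ((frW_bij _ _).1.comp
      (res_injective_of_bijective Function.bijective_id))⟩, fun X n hX hn => imp_congr_left ?_⟩
  have : CharZero X.F := charZero_of_injective_algebraMap (algebraMap k _).injective
  have E := hE k X n hX (by omega)
  have E' := old_ev k X n hX hn
  have hm : ∀ a, tA _ a ∈ X.Brauer ↔ a ∈ X.Bw := fun a =>
    nf_mem thmK hk chf_thm n1_thm hX hn E
  constructor
  · rintro ⟨z, z', h1, h2, h3⟩
    choose y g1 g2 using fun u => nf_bc E ((φ u).symm : (e u).K →ₐ[k] u.adicCompletion k) (z (e u))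
    refine ⟨y, z', fun u => (g1 u).trans (h1 _), h2, fun α hα => ?_⟩
    obtain ⟨a, rfl⟩ := (tA_bij X.F).2 α
    have ha := (hm a).1 hα
    refine Eq.trans (congrArg₂ (· + ·) ?_ ?_) (h3 _ ((mem_BrX E _).2 ⟨a, ha, rfl⟩))
    · refine Eq.trans (finsum_congr fun u => congrArg (j.fin (e u))
        (nf_term E E' ha hα (z' := z (e u)) ?_))
        (finsum_comp_equiv e (f := fun v => j.fin v (Var.pairS (z v) (frW _ _ a))))
      refine Eq.trans ?_ (congrArg _ (g2 u a ha).symm)
      refine ((res_res _ _ _).trans ?_).symm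
      exact (congrArg (fun γ => rs γ _) (RingHom.ext (φ u).apply_symm_apply)).trans (res_id _)
    · exact (Finset.sum_congr rfl fun w _ => congrArg (j.inf w)
        (nf_term E E' ha hα (res_id _).symm)).trans (finsum_eq_sum_of_fintype _).symm
  · rintro ⟨z, z', h1, h2, h3⟩
    obtain ⟨G, hG⟩ : ∃ G : HeightOneSpectrum (𝓞 k) → BR X.F → AddCircle (1 : ℚ), ∀ u a, G u a =
      j.fin (e u) (frW _ _ (res (φ u : _ →+* (e u).K) (Var.pair (z u) (tA _ a)))) :=
      ⟨_, fun _ _ => rfl⟩
    have key : ∀ v : Place k, ∃ y : X.Cyc v.K, Var.deg y = 1 ∧ ∀ a ∈ X.Bw,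
        j.fin v (Var.pairS y (frW _ _ a)) = G (e.symm v) a := fun v => by
      obtain ⟨u, rfl⟩ := e.surjective v
      obtain ⟨y, g1, g2⟩ := nf_bc E (φ u : _ →ₐ[k] (e u).K) (z u)
      exact ⟨y, g1.trans (h1 u), fun a ha => by
        rw [e.symm_apply_apply, hG]
        exact congrArg _ (nf_term E E' ha ((hm a).2 ha) (g2 a ha)).symm⟩
    choose y g1 g2 using key
    refine ⟨y, z', g1, h2, fun α hα => ?_⟩
    obtain ⟨a, ha, rfl⟩ := (mem_BrX E _).1 hα
    refine Eq.trans (congrArg₂ (· + ·) ?_ ?_) (h3 _ ((hm a).2 ha))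
    · exact (finsum_congr fun v => g2 v a ha).trans
        ((finsum_comp_equiv e.symm (f := fun u => G u a)).trans (finsum_congr fun u => hG u a))
    · exact (finsum_eq_sum_of_fintype _).trans (Finset.sum_congr rfl fun w _ => congrArg (j.inf w)
        (nf_term E E' ha ((hm a).2 ha) (res_id _).symm).symm)

theorem nf_main (hE : EV) (j : Invs k) (h : ∀ X : Var k, X.Nice 3 → X.ZCs j) (n : ℕ) (hn : 4 ≤ n)
    (X : Var k) (hX : X.Nice n) : X.ZCs j := by
  obtain ⟨j', hj⟩ := nf_zc hE j
  exact (hj X n hX (by omega)).2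
    (old_main k j' (fun Y hY => (hj Y 3 hY le_rfl).1 (h Y hY)) n hn X hX)

end Pool.Agent.ZCy.F
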